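import Pool.Agent.H16.KN.TTc
import Pool.Agent.H71.FQ.TCls

/-!
# Project CZ, the `K₀`-part: the trace functionals of `KQ (B[G]) n` without rotation

`IsC c φ` : a function `φ` of `n + 2` variables in `G`, invariant under the centralizer of `c`, with coboundary zero.
`tr1` is the functional of `KQ (B[G]) n` which it defines: on the class of a cycle of `GL_N(B[G])` it is the value of the
cocycle `x ↦ TT c φ x` (`KN/TTa.lean`).

PROOFS. As `isCoc_TK`, `trT`, `trT_cls`, `trT_smul`, `trT_cob` of `FQ/TCls.lean` with `TT_inv`, `TT_face` (`KN/TTb.lean`),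
`TM_sum`, `TM_add`, `TM_smul`, `TT_blk` (`KN/TTa.lean`).
-/

set_option autoImplicit false

open Matrix

universe u v w

namespace Pool.Agent.H16.CZ

open Pool.Agent.H71.FQ Pool.Agent.H16.KN

section

variable {G : Type v} [Group G] {B : Type u} [CommRing B] {n : ℕ} {c : G}

/-- The cochains which define functionals on `KQ (B[G]) n`. -/
structure IsC (c : G) (φ : (Fin (n + 2) → G) → B) : Prop where
  inv : CI c φ
  coc : ∀ v, dl φ v = 0

/-- the coboundary of the trace cochain -/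
theorem dl_TT {k N : ℕ} {φ : (Fin (k + 1) → G) → B} (hφ : CI c φ)
    (x : Fin (k + 2) → GLm N (MonoidAlgebra B G)) :
    ∑ i : Fin (k + 2), (-1 : ℤ) ^ (i : ℕ) • TT c φ (fun j => x (i.succAbove j)) =
      TT c (dl φ) x := by
  refine Eq.trans ?_ (TM_sum Finset.univ (fun i : Fin (k + 2) => (-1 : ℤ) ^ (i : ℕ)) c
    (fun (i : Fin (k + 2)) (v : Fin (k + 2) → G) => φ fun j => v (i.succAbove j)) (lts x)).symm
  refine Finset.sum_congr rfl fun i _ => ?_
  congr 1
  exact (TT_face hφ x i).symm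

theorem TT_of_zero {K N : ℕ} [NeZero K] {φ : (Fin K → G) → B} (h : ∀ v, φ v = 0)
    (x : Fin K → GLm N (MonoidAlgebra B G)) : TT c φ x = 0 := by
  have e : φ = fun v => (0 : B) * φ v := by
    funext v
    rw [h v, mul_zero]
  unfold TT
  rw [e, TM_smul, zero_mul]

theorem isCoc_TT (N : ℕ) {φ : (Fin (n + 2) → G) → B} (hφ : IsC c φ) :
    IsCoc (GLm N (MonoidAlgebra B G)) n fun x => TT c φ x where
  inv g x := TT_inv c φ g x
  coc x := by
    rw [dl_TT hφ.inv x]
    exact TT_of_zero hφ.coc x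

theorem tr1_aux {φ : (Fin (n + 2) → G) → B} (hφ : IsC c φ) (N M : ℕ)
    (w : HG (GLm N (MonoidAlgebra B G) × GLm M (MonoidAlgebra B G)) n) :
    HG.ev (isCoc_TT (N + M) hφ) (HG.map n (blk N M (MonoidAlgebra B G)) w) =
      HG.ev (isCoc_TT N hφ) (HG.map n (MonoidHom.fst (GLm N (MonoidAlgebra B G))
        (GLm M (MonoidAlgebra B G))) w) +
      HG.ev (isCoc_TT M hφ) (HG.map n (MonoidHom.snd (GLm N (MonoidAlgebra B G))
        (GLm M (MonoidAlgebra B G))) w) := by
  rw [HG.ev_map, HG.ev_map, HG.ev_map]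
  refine HG.ev_add _ _ _ (fun h => ?_) w
  have h1 := TT_blk c φ (fun j => (h j).1) fun j => (h j).2
  have h2 : (fun j => blk N M (MonoidAlgebra B G) ((h j).1, (h j).2)) =
      fun j => blk N M (MonoidAlgebra B G) (h j) := rfl
  rw [h2] at h1
  exact h1

/-- **The functional.** -/
noncomputable def tr1 {φ : (Fin (n + 2) → G) → B} (hφ : IsC c φ) :
    KQ (MonoidAlgebra B G) n →+ B :=
  KQ.lift (fun N => HG.ev (isCoc_TT N hφ)) (tr1_aux hφ)

theorem tr1_cls {φ : (Fin (n + 2) → G) → B} (hφ : IsC c φ) (N : ℕ)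
    (x : HG (GLm N (MonoidAlgebra B G)) n) :
    tr1 hφ (KQ.cls (MonoidAlgebra B G) n N x) = HG.ev (isCoc_TT N hφ) x :=
  KQ.lift_cls _ _ N x

theorem isC_mul (r : B) {φ : (Fin (n + 2) → G) → B} (hφ : IsC c φ) : IsC c fun v => r * φ v where
  inv g hg x := by
    show r * _ = r * _
    rw [hφ.inv g hg x]
  coc v := by
    have h := hφ.coc v
    unfold dl at h ⊢
    simp only [← mul_smul_comm]
    rw [← Finset.mul_sum, h, mul_zero]

theorem tr1_mul (r : B) {φ : (Fin (n + 2) → G) → B} (hφ : IsC c φ)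
    (h : IsC c fun v => r * φ v) (x : KQ (MonoidAlgebra B G) n) :
    tr1 h x = r * tr1 hφ x := by
  suffices H : tr1 h = (AddMonoidHom.mulLeft r).comp (tr1 hφ) by rw [H]; rfl
  apply KQ.hom_ext
  intro N x
  rw [AddMonoidHom.comp_apply, tr1_cls, tr1_cls]
  have e : ∀ y : Fin (n + 2) → GLm N (MonoidAlgebra B G), TT c (fun v => r * φ v) y =
      (AddMonoidHom.mulLeft r) (TT c φ y) := fun y => TM_smul c φ r (lts y)
  have hc : IsCoc (GLm N (MonoidAlgebra B G)) n fun y => (AddMonoidHom.mulLeft r) (TT c φ y) := by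
    have e' : (fun y : Fin (n + 2) → GLm N (MonoidAlgebra B G) => (AddMonoidHom.mulLeft r)
        (TT c φ y)) = fun y => TT c (fun v => r * φ v) y := funext fun y => (e y).symm
    rw [e']
    exact isCoc_TT N h
  rw [HG.ev_congr (isCoc_TT N h) hc e x, HG.ev_comp (isCoc_TT N hφ) (AddMonoidHom.mulLeft r) hc x]

/-- Cohomologous cochains define the same functional. -/
theorem tr1_cob {φ φ' : (Fin (n + 2) → G) → B} (hφ : IsC c φ) (hφ' : IsC c φ')
    {β : (Fin (n + 1) → G) → B} (hβ : CI c β) (h : ∀ v, φ' v = φ v + dl β v)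
    (x : KQ (MonoidAlgebra B G) n) : tr1 hφ' x = tr1 hφ x := by
  suffices H : tr1 hφ' = tr1 hφ by rw [H]
  apply KQ.hom_ext
  intro N x
  rw [tr1_cls, tr1_cls]
  have key : ∀ y : Fin (n + 2) → GLm N (MonoidAlgebra B G), TT c φ' y = TT c φ y +
      ∑ i : Fin (n + 2), (-1 : ℤ) ^ (i : ℕ) • TT c β (fun j => y (i.succAbove j)) := by
    intro y
    rw [dl_TT hβ y]
    have h1 : φ' = fun v => φ v + dl β v := funext h
    rw [h1]
    exact TM_add c φ (dl β) (lts y)
  have hc : IsCoc (GLm N (MonoidAlgebra B G)) n fun y =>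
      ∑ i : Fin (n + 2), (-1 : ℤ) ^ (i : ℕ) • TT c β (fun j => y (i.succAbove j)) := by
    have e : (fun y : Fin (n + 2) → GLm N (MonoidAlgebra B G) =>
        ∑ i : Fin (n + 2), (-1 : ℤ) ^ (i : ℕ) • TT c β (fun j => y (i.succAbove j))) =
          fun y => TT c φ' y - TT c φ y := funext fun y => by rw [key y, add_sub_cancel_left]
    rw [e]
    refine ⟨fun g y => ?_, fun y => ?_⟩
    · exact congrArg₂ (· - ·) ((isCoc_TT N hφ').inv g y) ((isCoc_TT N hφ).inv g y)
    · simp only [smul_sub, Finset.sum_sub_distrib]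
      rw [(isCoc_TT N hφ').coc, (isCoc_TT N hφ).coc, sub_zero]
  rw [HG.ev_add (isCoc_TT N hφ') (isCoc_TT N hφ) hc key x,
    HG.ev_cob (fun y => TT c β y) (fun g y => TT_inv c β g y) hc x, add_zero]

end

end Pool.Agent.H16.CZ
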