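import Pool.Agent.H16.KN.UctF
import Pool.Agent.H71.DB.Elim

/-!
# Project CZ, the `K₀`-part: cocycles with values in a field of characteristic zero

PROOF. `exists_cocycle'` (`KN/UctF.lean`) and `exists_hom_rat` (`H71/DB/Elim.lean`), composed with `algebraMap ℚ k`.
-/

set_option autoImplicit false

universe u v w

namespace Pool.Agent.H16.CZ

open Pool.Agent.H71.FQ Pool.Agent.H16.KN

theorem sep_field (k : Type u) [Field k] [CharZero k] {Γ : Type v} [Group Γ] {n : ℕ}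
    (b : HG Γ n) (h : ∀ (φ : (Fin (n + 2) → Γ) → k) (hφ : IsCoc Γ n φ), HG.ev hφ b = 0) :
    ∃ m : ℤ, m ≠ 0 ∧ m • b = 0 := by
  by_contra hcon
  push Not at hcon
  obtain ⟨μ, hμ⟩ := Pool.Agent.H71.DB.exists_hom_rat b hcon
  obtain ⟨φ, hφ, h1⟩ := exists_cocycle' ((algebraMap ℚ k : ℚ →+* k).toAddMonoidHom.comp μ)
  have h2 := h φ hφ
  rw [h1 b] at h2
  exact hμ ((map_eq_zero_iff _ (algebraMap ℚ k).injective).1 h2)

end Pool.Agent.H16.CZ
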