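import Pool.Agent.H16.CZ.TorsA
import Pool.Agent.H16.CZ.Sep1

/-!
# Project CZ: the `K₀`-part

If a nonzero multiple of the value of the assembly map of the `K₀`- and the `K₁`-part vanishes then the `K₀`-component is
torsion.
-/

set_option autoImplicit false

universe u v w

namespace Pool.Agent.H16.CZ

open Pool.Agent.H71.FQ Pool.Agent.H16.KN Pool.Agent.H16.FU

theorem k0_tor {k : Type u} [Field k] [CharZero k] {G : Type v} [Group G] {n : ℕ}
    (w0 : HnK0 k G (n + 1)) (w1 : HnK1 k G n) (M : ℤ) (hM : M ≠ 0)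
    (h : M • assembly01 k n G (w0, w1) = 0) : ∃ m : ℤ, m ≠ 0 ∧ m • w0 = 0 := by
  refine torsion_of_T1 (fun D _ b hb => sep_field k b hb) w0 fun c _ φ hφ => ?_
  have h1 : M • (assemblyN k (n + 1) G w0 + assembly1 k n G w1) = 0 := h
  have h2 := congrArg (T1 hφ) h1
  rw [map_zsmul, map_add, T1_assembly1 hφ w1, add_zero, map_zero, zsmul_eq_mul] at h2
  rcases mul_eq_zero.1 h2 with h3 | h3
  · exact absurd (by exact_mod_cast h3) hM
  · exact h3

end Pool.Agent.H16.CZ
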