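import Pool.Agent.H16.CZ.Fun1
import Pool.Agent.H16.CZ.Rinv
import Pool.Agent.H16.FU.Defs1

/-!
# Project CZ, the `K₀`-part: the functionals vanish on the `K₁`-symbols

PROOF of `tr1_gasm1`.  Let `x = K1.mk U`, `z = HG.mk z'` (`K1.hom_ext` or `K1.induction`, `HG.mk_surjective`; the product is
additive in both variables).  `asm1_mk` : `gasm1 .. (K1.mk U) z = KQ.cls .. (HG.cr (scal ..) (mapGL .. U) .. z)`, `HG.cr_mk`
(`FU/Pri.lean`) : the cycle is the prism `pri (mapGL .. U) _ (push ℤ (scal ..) _ z')`.  For a tuple `y` of elements of the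
centralizer the terms of the prism (`pri_single`, `priT`) are the tuples `x^(i) = (y_0, …, y_i, y_i U, …, y_k U)` (`scal_comm`),
that is `x^(i)` for `U = 1` times `(1, …, 1, U, …, U)`; so by `TT_rinv` the value of `TT c φ` is the same as for `U = 1`
(compare `val_i` of `H39/KL/ValA.lean`).  Hence the value of `tr1` at `U × z` is the value at `1 × z`, and
`HG.cr _ 1 _ z = 0` (`HG.cr_one`).
-/

set_option autoImplicit false

open Matrix

universe u v w

namespace Pool.Agent.H16.CZ

open Pool.Agent.H71.FQ Pool.Agent.H16.KN Pool.Agent.H16.FU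
open Pool.Agent.H95.WH (K1 K1.mk K1.map)

section

variable {G : Type v} [Group G] {B : Type u} [CommRing B] {n : ℕ} {c : G}

/-- functions which do not see the element of the prism -/
private theorem lc_pri_gen {Λ : Type*} [Group Λ] {M : Type*} [AddCommGroup M] {m : ℕ}
    (Φ : (Fin (m + 2) → Λ) → M) (u : Λ)
    (h : ∀ (x : Fin (m + 1) → Λ) (i : Fin (m + 1)), Φ (priT u x i) = Φ (priT 1 x i))
    (w : Cx ℤ Λ m) : Finsupp.linearCombination ℤ Φ (pri u m w) =
      Finsupp.linearCombination ℤ Φ (pri 1 m w) := by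
  refine cx_ext (f := (Finsupp.linearCombination ℤ Φ).comp (pri u m))
    (g := (Finsupp.linearCombination ℤ Φ).comp (pri 1 m)) ?_ w
  intro x
  rw [LinearMap.comp_apply, LinearMap.comp_apply, pri_single, pri_single, map_sum, map_sum]
  refine Finset.sum_congr rfl fun i _ => ?_
  rw [map_smul, map_smul, Finsupp.linearCombination_single, Finsupp.linearCombination_single, h]

/-- one term of the prism -/
private theorem TT_priT {φ : (Fin (n + 1 + 2) → G) → B} (hφ : IsC c φ) (D : Subgroup G)
    (hD : RI D φ) {N : ℕ} (U : GLm N (MonoidAlgebra B D))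
    (x : Fin (n + 1 + 1) → GLm N (MonoidAlgebra B G)) (i : Fin (n + 1 + 1)) :
    TT c φ (priT (mapGL (MonoidAlgebra.mapDomainRingHom B D.subtype) N U) x i) =
      TT c φ (priT 1 x i) := by
  have h1 := TT_rinv hφ.inv D hD (priT 1 x i)
    (fun j => if i.castSucc < j then U else 1) (if_neg (Fin.not_lt_zero _))
  rw [← h1]
  congr 1
  funext j
  unfold priT
  split_ifs
  · rw [mul_one]
  · rw [map_one, mul_one]

/-- **The value on the symbols of the `K₁`-part is zero.** -/
theorem tr1_gasm1 {φ : (Fin (n + 1 + 2) → G) → B} (hφ : IsC c φ) (D : Subgroup G) (hD : RI D φ)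
    (x : K1 (MonoidAlgebra B D)) (z : HG (Subgroup.centralizer (D : Set G)) n) :
    tr1 hφ (gasm1 B n D.subtype (Subgroup.centralizer (D : Set G)).subtype (cent_comm D) x z) =
      0 := by
  suffices H : (AddMonoidHom.compHom (tr1 hφ)).comp
      (gasm1 B n D.subtype (Subgroup.centralizer (D : Set G)).subtype (cent_comm D)) = 0 from
    DFunLike.congr_fun (DFunLike.congr_fun H x) z
  apply Pool.Agent.H95.WH.K1.hom_ext
  intro N U
  apply AddMonoidHom.ext
  intro z
  change tr1 hφ (asm1 n (MonoidAlgebra.mapDomainRingHom B D.subtype)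
    ((grpHom B G).comp (Subgroup.centralizer (D : Set G)).subtype)
    (grpHom_comm B D.subtype _ (cent_comm D)) (K1.mk U) z) = 0
  rw [asm1_mk, tr1_cls]
  have h0 := HG.cr_one (n := n)
    (scal N ((grpHom B G).comp (Subgroup.centralizer (D : Set G)).subtype))
    (fun γ => by rw [mul_one, one_mul]) z
  have h2 : HG.ev (isCoc_TT N hφ) (HG.cr
      (scal N ((grpHom B G).comp (Subgroup.centralizer (D : Set G)).subtype)) 1
      (fun γ => by rw [mul_one, one_mul]) z) = 0 := by rw [h0, map_zero]
  rw [← h2]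
  obtain ⟨z, rfl⟩ := HG.mk_surjective z
  rw [HG.cr_mk, HG.cr_mk, HG.ev_mk, HG.ev_mk]
  exact lc_pri_gen (fun x : Fin (n + 1 + 2) → GLm N (MonoidAlgebra B G) => TT c φ x) _
    (fun x i => TT_priT hφ D hD U x i) _

end

end Pool.Agent.H16.CZ
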