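import Pool.Agent.H16.CZ.V0
import Pool.Agent.H16.CZ.V1
import Pool.Agent.H16.KN.Coch
import Pool.Agent.H71.FQ.EvD

/-!
# Project CZ, the `K₀`-part: the functionals of the cocycles of the centralizer of `c`

`T1 c hφ` is the functional of the cocycle `φ` of the centralizer of `c`, pulled back to `G` along a map `π` which is
equivariant from the left.

PROOFS. `isC_pull`: clear.  `exists_av`: `avF_eq` (`FQ/EvD.lean`) with `q = 1` and `Φ = u1 φ`, `avF_rinv`, `avF_isInv`,
`isPhi_avF` (`Fin 1 → G` is `G`; `Fintype.card (Fin 1 → D) = Fintype.card D`).  `T1_gasm1`: `tr1_gasm1` for the function of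
`exists_av`, `tr1_cob`, `tr1_mul`, and cancel `(card D) ^ (n + 3)`.  `T1_assembly1`: `hnk1_induction`, `asm1_sy1`.
-/

set_option autoImplicit false

open Matrix

universe u v w

namespace Pool.Agent.H16.CZ

open Pool.Agent.H71.FQ Pool.Agent.H16.KN Pool.Agent.H16.FU
open Pool.Agent.H95.WH (K1 K1.mk K1.map)

section

variable {G : Type v} [Group G] {B : Type u} [CommRing B] {n : ℕ} {c : G}

/-- the pull back of a cochain of the centralizer -/
def pullC (π : G → Subgroup.centralizer ({c} : Set G))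
    (φ : (Fin (n + 2) → Subgroup.centralizer ({c} : Set G)) → B) (v : Fin (n + 2) → G) : B :=
  φ fun j => π (v j)

theorem isC_pull {π : G → Subgroup.centralizer ({c} : Set G)}
    (hπ : ∀ (z : Subgroup.centralizer ({c} : Set G)) (g : G), π (z * g) = z * π g)
    {φ : (Fin (n + 2) → Subgroup.centralizer ({c} : Set G)) → B}
    (hφ : IsCoc (Subgroup.centralizer ({c} : Set G)) n φ) : IsC c (pullC π φ) where
  inv g hg x := by
    have hz : g ∈ Subgroup.centralizer ({c} : Set G) :=
      Subgroup.mem_centralizer_singleton_iff.2 hg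
    show φ (fun j => π (g * x j)) = φ fun j => π (x j)
    rw [← hφ.inv ⟨g, hz⟩ fun j => π (x j)]
    congr 1
    funext j
    exact hπ ⟨g, hz⟩ (x j)
  coc v := hφ.coc fun j => π (v j)

theorem exists_av {φ : (Fin (n + 2) → G) → B} (hφ : IsC c φ) (D : Subgroup G) [Fintype D] :
    ∃ (φ' : (Fin (n + 2) → G) → B) (β : (Fin (n + 1) → G) → B), IsC c φ' ∧ RI D φ' ∧ CI c β ∧
      ∀ v, φ' v = (Fintype.card D : B) ^ (n + 2) * φ v + dl β v := by
  have hΦ : IsPhi c (u1 φ) := isPhi_u1 hφ
  obtain ⟨Ψ, hΨ, h⟩ := avF_eq D hΦ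
  refine ⟨fun v => avF D (u1 φ) fun j _ => v j, fun v => Ψ fun j _ => v j, ⟨?_, ?_⟩, ?_, ?_, ?_⟩
  · intro g hg x
    exact (avF_isInv D hΦ.toIsInv).inv g hg fun j _ => x j
  · intro v
    exact (isPhi_avF D hΦ).coc fun j _ => v j
  · intro s hs v
    exact avF_rinv D (u1 φ) (fun j _ => s j) (fun j _ => hs j) fun j _ => v j
  · intro g hg x
    exact hΨ.inv g hg fun j _ => x j
  · intro v
    refine (h fun j _ => v j).trans ?_
    have h1 : Fintype.card (Fin 1 → D) = Fintype.card D := by
      rw [Fintype.card_fun, Fintype.card_fin, pow_one]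
    rw [h1, zsmul_eq_mul, Int.cast_pow, Int.cast_natCast]
    rfl

/-- the map to the centralizer -/
noncomputable def piC (c : G) : G → Subgroup.centralizer ({c} : Set G) := (exists_pi c).choose

theorem piC_mul (c : G) (z : Subgroup.centralizer ({c} : Set G)) (g : G) :
    piC c (z * g) = z * piC c g := (exists_pi c).choose_spec z g

/-- **The functional of a cocycle of the centralizer of `c`.** -/
noncomputable def T1 {φ : (Fin (n + 2) → Subgroup.centralizer ({c} : Set G)) → B}
    (hφ : IsCoc (Subgroup.centralizer ({c} : Set G)) n φ) : KQ (MonoidAlgebra B G) n →+ B :=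
  tr1 (isC_pull (piC_mul c) hφ)

end

section

variable {G : Type v} [Group G] {B : Type u} [Field B] [CharZero B] {n : ℕ} {c : G}

/-- **The value on the symbols of the `K₁`-part is zero.** -/
theorem T1_gasm1 {φ : (Fin (n + 1 + 2) → Subgroup.centralizer ({c} : Set G)) → B}
    (hφ : IsCoc (Subgroup.centralizer ({c} : Set G)) (n + 1) φ) (D : Subgroup G) [Finite D]
    (x : K1 (MonoidAlgebra B D)) (z : HG (Subgroup.centralizer (D : Set G)) n) :
    T1 hφ (gasm1 B n D.subtype (Subgroup.centralizer (D : Set G)).subtype (cent_comm D) x z) =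
      0 := by
  have : Fintype D := Fintype.ofFinite D
  have h0 := isC_pull (piC_mul c) hφ
  obtain ⟨φ', β, h1, h2, h3, h4⟩ := exists_av h0 D
  have h5 := tr1_gasm1 h1 D h2 x z
  rw [tr1_cob (isC_mul ((Fintype.card D : B) ^ (n + 1 + 2)) h0) h1 h3 h4, tr1_mul _ h0] at h5
  have h6 : (Fintype.card D : B) ≠ 0 := Nat.cast_ne_zero.2 Fintype.card_ne_zero
  exact (mul_eq_zero.1 h5).resolve_left (pow_ne_zero _ h6)

/-- the functionals vanish on the image of the `K₁`-part -/
theorem T1_assembly1 {φ : (Fin (n + 1 + 2) → Subgroup.centralizer ({c} : Set G)) → B}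
    (hφ : IsCoc (Subgroup.centralizer ({c} : Set G)) (n + 1) φ) (w : HnK1 B G n) :
    T1 hφ (assembly1 B n G w) = 0 := by
  induction w using hnk1_induction with
  | h0 => rw [map_zero, map_zero]
  | h1 F x z =>
    rw [asm1_sy1]
    have : Finite F.1 := F.2
    exact T1_gasm1 hφ F.1 x z
  | h2 a b ha hb => rw [map_add, map_add, ha, hb, add_zero]
  | h3 a ha => rw [map_neg, map_neg, ha, neg_zero]

end

end Pool.Agent.H16.CZ
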